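import Pool.Agent.Run7.h808.DN.Seq
open MeasureTheory Filter Topology Set
open scoped ENNReal NNReal RealInnerProductSpace

/-!
# `𝒜`-superharmonic functions with a prescribed polar set of infinities and a prescribed majorant
-/

namespace Pool.Agent.Run7.h808.DN

open Pool.Agent.Helper533 Pool.Agent.Helper533.Polar

variable {n : ℕ} {p α β : ℝ} {w : Sp n → ℝ} {𝒜 : Sp n → Sp n → Sp n}

/-- the infinity set of an `𝒜`-superharmonic function in an open set is a `G_δ` set, and so is its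
intersection with the infinity set of a lower semicontinuous function -/
theorem isGδ_top {Ω : Set (Sp n)} (hΩ : IsOpen Ω) {q : Sp n → EReal}
    (hq : LowerSemicontinuousOn q Ω) {h : Sp n → ℝ≥0∞} (hh : LowerSemicontinuous h) :
    IsGδ {x | x ∈ Ω ∧ q x = ⊤ ∧ h x = ⊤} := by
  have h1 : ∀ k : ℕ, IsOpen (Ω ∩ q ⁻¹' Ioi ((k : ℝ) : EReal)) := by
    intro k
    obtain ⟨u, hu, he⟩ := lowerSemicontinuousOn_iff_preimage_Ioi.1 hq ((k : ℝ) : EReal)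
    rw [he]
    exact hΩ.inter hu
  have h2 : ∀ k : ℕ, IsOpen (h ⁻¹' Ioi ((k : ℝ≥0∞))) := fun k => hh.isOpen_preimage _
  have he : {x | x ∈ Ω ∧ q x = ⊤ ∧ h x = ⊤} =
      ⋂ k : ℕ, ((Ω ∩ q ⁻¹' Ioi ((k : ℝ) : EReal)) ∩ h ⁻¹' Ioi ((k : ℝ≥0∞))) := by
    ext x
    simp only [mem_ofPred_eq, mem_iInter, mem_inter_iff, mem_preimage, mem_Ioi]
    constructor
    · rintro ⟨h3, h4, h5⟩ k
      refine ⟨⟨h3, ?_⟩, ?_⟩
      · rw [h4]; exact EReal.coe_lt_top _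
      · rw [h5]; exact ENNReal.natCast_lt_top k
    · intro h3
      refine ⟨(h3 0).1.1, ?_, ?_⟩
      · rw [EReal.eq_top_iff_forall_lt]
        intro y
        obtain ⟨k, hk⟩ := exists_nat_gt y
        exact lt_trans (EReal.coe_lt_coe_iff.2 hk) (h3 k).1.2
      · by_contra hne
        obtain ⟨k, hk⟩ := exists_nat_gt (h x).toReal
        have h4 := (h3 k).2
        have h5 : h x < (k : ℝ≥0∞) := by
          rw [← ENNReal.ofReal_toReal hne, ← ENNReal.ofReal_natCast]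
          exact (ENNReal.ofReal_lt_ofReal_iff_of_nonneg ENNReal.toReal_nonneg).2 hk
        exact lt_irrefl _ (h4.trans h5)
  rw [he]
  exact IsGδ.iInter_of_isOpen fun k => (h1 k).inter (h2 k)

/-- **`G_δ` sets.** -/
theorem main_Gδ (hn : 1 ≤ n) (hp : 1 < p) (hw : Deny.IsAdmissible p w)
    (hA : Stmt.IsOperator p α β w 𝒜) :
    ∃ C : ℝ → ℝ, ∀ E : Set (Sp n), IsGδ E → Deny.IsPolar 𝒜 p w E →
      ∀ h : Sp n → ℝ≥0∞, LowerSemicontinuous h → (∀ x ∈ E, h x = ⊤) →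
      ∃ u : Sp n → EReal, Deny.IsSuperharmonic 𝒜 p w univ u ∧ (∀ x, u x = ⊤ ↔ x ∈ E) ∧
        ∀ (r : ℝ) (x : Sp n), ‖x‖ ≤ r →
          ((-C r : ℝ) : EReal) ≤ u x ∧ u x ≤ ((C r : ℝ) : EReal) + (h x : EReal) := by
  have hwt := wt_of hn hp hw hA
  obtain ⟨Cd0, -, -, -, -, hfin⟩ := wm_basic' hp hwt
  have := hfin
  obtain ⟨Cd, θ, Cs, lam, Cp, hadm⟩ := adm_of hn hp hwt
  have hα : 0 < α := hA.alpha_pos
  have hβ : 0 < β := lt_of_lt_of_le hα hA.alpha_le_beta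
  have hop := op_of_isOperator' hp hwt hA
  have hS := sMono_of hwt hA
  obtain ⟨δ, hδ0, hδ1, hbar⟩ := exists_barrier (n := n) hn hp hα hβ hop hS hadm
  have hB : Bar (fun x ξ => (w x)⁻¹ • 𝒜 x ξ) p (Stmt.wm w) lam δ := ⟨hδ0, hδ1, hbar⟩
  refine ⟨fun r => MM δ ⌈4 * r⌉₊ + 3 + ∑ j ∈ Finset.range ⌈4 * r⌉₊, cc δ j,
    fun E hE hpol h hh hhE => ?_⟩
  obtain ⟨Ω, q, hΩ, hEΩ, hq, hqE⟩ := hpol
  obtain ⟨-, hcap⟩ := polar_capNull hn hp hα hβ hop hS hadm hΩ hq.lsc hq.ne_bot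
    (cmpSuperE_of hp hwt hq) hq.not_top
  have hcapE : ∀ L : Set (Sp n), IsCompact L → L ⊆ Ω → CapNull p (Stmt.wm w) E L := by
    intro L hL hLΩ N hN hLN κ hκ
    obtain ⟨V, φ, Φ, h1, h2, h3⟩ := hcap L hL hLΩ N hN hLN κ hκ
    exact ⟨V, φ, Φ, h1, fun x hx => h2 ⟨⟨hEΩ hx.1, hqE x hx.1⟩, hx.2⟩, h3⟩
  obtain ⟨f, hf, hEf⟩ := hE.eq_iInter_nat
  obtain ⟨U, hU⟩ : ∃ U : ℕ → Set (Sp n), ∀ k, U k =
      (⋂ i ∈ Finset.range (k + 1), f i) ∩ h ⁻¹' Ioi (k : ℝ≥0∞) := ⟨_, fun _ => rfl⟩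
  have hUo : ∀ k, IsOpen (U k) := by
    intro k
    rw [hU]
    exact (isOpen_biInter_finset fun i _ => hf i).inter (hh.isOpen_preimage _)
  have hEU : ∀ k, E ⊆ U k := by
    intro k x hx
    rw [hU]
    refine ⟨?_, ?_⟩
    · simp only [mem_iInter]
      intro i _
      rw [hEf, mem_iInter] at hx
      exact hx i
    · rw [mem_preimage, hhE x hx]
      exact ENNReal.natCast_lt_top k
  have hanti : ∀ i j, i ≤ j → U j ⊆ U i := by
    intro i j hij x hx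
    rw [hU] at hx ⊢
    refine ⟨?_, ?_⟩
    · have hx1 := hx.1
      simp only [mem_iInter, Finset.mem_range] at hx1 ⊢
      intro l hl
      exact hx1 l (by omega)
    · have hx2 : (j : ℝ≥0∞) < h x := hx.2
      change (i : ℝ≥0∞) < h x
      exact lt_of_le_of_lt (by exact_mod_cast hij) hx2
  have hUE : ∀ x, (∀ k, x ∈ U k) → x ∈ E := by
    intro x hx
    rw [hEf, mem_iInter]
    intro i
    have := hx i
    rw [hU] at this
    have h1 := this.1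
    simp only [mem_iInter, Finset.mem_range] at h1
    exact h1 i (by omega)
  obtain ⟨u, hu1, hu2, hu3, hu4, hu5, hu6⟩ :=
    dn_U hn hp hα hβ hop hS hadm hB hΩ hEΩ hcapE U hUo hEU hanti hUE
  have hEne : ∃ y, y ∉ E := by
    by_contra hcon
    push Not at hcon
    have hΩu : Ω = univ := eq_univ_of_forall fun x => hEΩ (hcon x)
    obtain ⟨y, -, hy⟩ := hq.not_top 0 (by rw [hΩu]; exact mem_univ _)
    exact hy (hqE y (hcon y))
  refine ⟨u, ⟨fun x _ => hu2 x, hu1.lowerSemicontinuousOn _, ?_, ?_⟩, hu4, ?_⟩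
  · intro x _
    obtain ⟨y, hy⟩ := hEne
    refine ⟨y, ?_, fun h => hy ((hu4 y).1 h)⟩
    rw [connectedComponentIn_univ, PreconnectedSpace.connectedComponent_eq_univ]
    exact mem_univ _
  · intro D hD hDc hDΩ h hc hh hb
    obtain ⟨-, H, hH1, hH2⟩ := hh
    refine hu3 D hD hDc hDΩ h H hc (LH.of_H1Loc hp hD hH1) ?_ hb
    intro φ hφ
    have h1 := hH2 φ (isTest_iff.2 hφ)
    have h2 := integral_wm' hwt (fun x => ⟪𝒜 x (H x), gradient φ x⟫)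
    rw [← h1, ← h2]
    congr 1
    ext x
    rw [real_inner_smul_left]
  · intro r x hx
    have hM0 := MM_nonneg hδ0 ⌈4 * r⌉₊
    have hs0 : 0 ≤ ∑ j ∈ Finset.range ⌈4 * r⌉₊, cc δ j :=
      Finset.sum_nonneg fun j _ => cc_nonneg hδ0 hδ1 j
    constructor
    · refine le_trans ?_ (hu5 r x hx)
      rw [EReal.coe_le_coe_iff]
      linarith
    · by_cases htop : h x = ⊤
      · rw [htop, EReal.coe_ennreal_top, EReal.coe_add_top]
        exact le_top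
      · obtain ⟨t, ht⟩ : ∃ t : ℝ≥0, (t : ℝ≥0∞) = h x :=
          ⟨(h x).toNNReal, ENNReal.coe_toNNReal htop⟩
        have hm : x ∉ U ⌈t⌉₊ := by
          intro hcon
          rw [hU] at hcon
          have h1 : ((⌈t⌉₊ : ℕ) : ℝ≥0∞) < h x := hcon.2
          rw [← ht] at h1
          have h2 : t ≤ (⌈t⌉₊ : ℝ≥0) := Nat.le_ceil t
          have h3 : (t : ℝ≥0∞) ≤ ((⌈t⌉₊ : ℕ) : ℝ≥0∞) := by exact_mod_cast h2
          exact lt_irrefl _ (lt_of_lt_of_le h1 h3)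
        refine (hu6 ⌈t⌉₊ r x hx hm).trans ?_
        rw [← ht, EReal.coe_nnreal_eq_coe_real, ← EReal.coe_add, EReal.coe_le_coe_iff]
        have h4 : ((⌈t⌉₊ : ℕ) : ℝ) < (t : ℝ) + 1 := by
          have h5 := Nat.ceil_lt_add_one (a := t) zero_le
          exact_mod_cast h5
        linarith

/-- **Arbitrary polar sets.** -/
theorem main_all (hn : 1 ≤ n) (hp : 1 < p) (hw : Deny.IsAdmissible p w)
    (hA : Stmt.IsOperator p α β w 𝒜) :
    ∃ C : ℝ → ℝ, ∀ E : Set (Sp n), Deny.IsPolar 𝒜 p w E →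
      ∀ h : Sp n → ℝ≥0∞, LowerSemicontinuous h → (∀ x ∈ E, h x = ⊤) →
      ∃ u : Sp n → EReal, Deny.IsSuperharmonic 𝒜 p w univ u ∧ (∀ x ∈ E, u x = ⊤) ∧
        (IsGδ E → ∀ x, u x = ⊤ → x ∈ E) ∧
        ∀ (r : ℝ) (x : Sp n), ‖x‖ ≤ r →
          ((-C r : ℝ) : EReal) ≤ u x ∧ u x ≤ ((C r : ℝ) : EReal) + (h x : EReal) := by
  obtain ⟨C, hC⟩ := main_Gδ hn hp hw hA
  refine ⟨C, fun E hpol h hh hhE => ?_⟩
  by_cases hE : IsGδ E
  · obtain ⟨u, h1, h2, h3⟩ := hC E hE hpol h hh hhE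
    exact ⟨u, h1, fun x hx => (h2 x).2 hx, fun _ x hx => (h2 x).1 hx, h3⟩
  · obtain ⟨Ω, q, hΩ, hEΩ, hq, hqE⟩ := hpol
    obtain ⟨u, h1, h2, h3⟩ := hC {x | x ∈ Ω ∧ q x = ⊤ ∧ h x = ⊤} (isGδ_top hΩ hq.lsc hh)
      ⟨Ω, q, hΩ, fun x hx => hx.1, hq, fun x hx => hx.2.1⟩ h hh (fun x hx => hx.2.2)
    exact ⟨u, h1, fun x hx => (h2 x).2 ⟨hEΩ hx, hqE x hx, hhE x hx⟩, fun hE' => absurd hE' hE, h3⟩

/-- **The infinity sets.** -/
theorem inf_sets (hn : 1 ≤ n) (hp : 1 < p) (hw : Deny.IsAdmissible p w)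
    (hA : Stmt.IsOperator p α β w 𝒜) (E : Set (Sp n)) :
    (∃ u : Sp n → EReal, Deny.IsSuperharmonic 𝒜 p w univ u ∧ {x | u x = ⊤} = E) ↔
      IsGδ E ∧ Deny.IsPolar 𝒜 p w E := by
  constructor
  · rintro ⟨u, hu, rfl⟩
    refine ⟨?_, univ, u, isOpen_univ, subset_univ _, hu, fun x hx => hx⟩
    have h1 := isGδ_top (n := n) isOpen_univ hu.lsc (h := fun _ => ⊤)
      lowerSemicontinuous_const
    convert h1 using 1
    ext x
    simp
  · rintro ⟨hE, hpol⟩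
    obtain ⟨C, hC⟩ := main_Gδ hn hp hw hA
    obtain ⟨u, h1, h2, -⟩ := hC E hE hpol (fun _ => ⊤) lowerSemicontinuous_const (fun _ _ => rfl)
    exact ⟨u, h1, Set.ext fun x => h2 x⟩

end Pool.Agent.Run7.h808.DN
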